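import Mathlib
import Pool.Agent.Helper65.SL.Base

/-! Project SL, module INV: the Ricci curvature in other coordinates. -/

set_option maxSynthPendingDepth 3
set_option linter.unusedSectionVars false
set_option linter.deprecated false
set_option linter.unusedVariables false

namespace Pool.Agent.Helper15.SL

open Filter Topology
open scoped ContDiff Manifold
open Pool.Agent.Helper65.SL Pool.Agent.Helper23.Ric

variable {E : Type*} [NormedAddCommGroup E] [NormedSpace ℝ E] [FiniteDimensional ℝ E]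
variable {G : E → E →L[ℝ] E →L[ℝ] ℝ} {ψ : E → E} {z : E}

theorem diff_clm {F : Type*} [NormedAddCommGroup F] [NormedSpace ℝ F] {f : E → E →L[ℝ] F} {x : E}
    (h : ∀ v, DifferentiableAt ℝ (fun y => f y v) x) : DifferentiableAt ℝ f x := by
  let d := Module.finrank ℝ E
  have hd : d = Module.finrank ℝ (Fin d → ℝ) := (Module.finrank_fin_fun ℝ).symm
  let e₁ := ContinuousLinearEquiv.ofFinrankEq hd
  let e₂ := (e₁.arrowCongr (1 : F ≃L[ℝ] F)).trans (ContinuousLinearEquiv.piRing (Fin d))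
  have h1 : DifferentiableAt ℝ (fun y => e₂ (f y)) x := by
    refine differentiableAt_pi.2 fun i => ?_
    exact h _
  have h2 : f = fun y => e₂.symm (e₂ (f y)) := by
    funext y
    simp
  rw [h2]
  exact (e₂.symm.differentiable _).comp x h1

/-- the Christoffel symbols as a bilinear map -/
noncomputable def cB (G : E → E →L[ℝ] E →L[ℝ] ℝ) (y : E) : E →L[ℝ] E →L[ℝ] E :=
  LinearMap.toContinuousLinearMap
    { toFun := fun v => LinearMap.toContinuousLinearMap
        { toFun := fun w => chris G y v w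
          map_add' := fun w w' => chris_add_right G y v w w'
          map_smul' := fun c w => chris_smul_right G y c v w }
      map_add' := fun v v' => by
        ext w
        simpa using chris_add_left G y v v' w
      map_smul' := fun c v => by
        ext w
        simpa using chris_smul_left G y c v w }

theorem cB_apply (y v w : E) : cB G y v w = chris G y v w := rfl

theorem diff_cB {x : E} (h : GoodAt G x) : DifferentiableAt ℝ (cB G) x := by
  apply diff_clm
  intro v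
  apply diff_clm
  intro w
  exact differentiableAt_chris h v w

theorem fderiv_chris {x : E} (h : GoodAt G x) (u v w : E) :
    fderiv ℝ (fun y => chris G y v w) x u = fderiv ℝ (cB G) x u v w := by
  have h1 := ((diff_cB h).hasFDerivAt.clm_apply (hasFDerivAt_const v x)).clm_apply
    (hasFDerivAt_const w x)
  have h2 : HasFDerivAt (fun y => chris G y v w) _ x := h1
  rw [h2.fderiv]
  simp

/-- the chain rule -/
theorem chain (hψ : ContDiffAt ℝ 3 ψ z) (h : GoodAt G (ψ z)) (h' : GoodAt (pull ψ G) z)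
    (hc : ∀ᶠ y in 𝓝 z, ∀ v w, fderiv ℝ ψ y (chris (pull ψ G) y v w) =
        chris G (ψ y) (fderiv ℝ ψ y v) (fderiv ℝ ψ y w) + fderiv ℝ (fderiv ℝ ψ) y v w)
    (u v w : E) :
    fderiv ℝ (fderiv ℝ ψ) z u (chris (pull ψ G) z v w) +
      fderiv ℝ ψ z (fderiv ℝ (fun y => chris (pull ψ G) y v w) z u) =
    fderiv ℝ (cB G) (ψ z) (fderiv ℝ ψ z u) (fderiv ℝ ψ z v) (fderiv ℝ ψ z w) +
      chris G (ψ z) (fderiv ℝ (fderiv ℝ ψ) z u v) (fderiv ℝ ψ z w) +
      chris G (ψ z) (fderiv ℝ ψ z v) (fderiv ℝ (fderiv ℝ ψ) z u w) +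
      fderiv ℝ (fderiv ℝ (fderiv ℝ ψ)) z u v w := by
  have c1 : ContDiffAt ℝ 2 (fderiv ℝ ψ) z := hψ.fderiv_right (by norm_num)
  have c2 : ContDiffAt ℝ 1 (fderiv ℝ (fderiv ℝ ψ)) z := c1.fderiv_right (by norm_num)
  have d0 : HasFDerivAt ψ (fderiv ℝ ψ z) z := (hψ.differentiableAt (by simp)).hasFDerivAt
  have d1 : HasFDerivAt (fderiv ℝ ψ) (fderiv ℝ (fderiv ℝ ψ) z) z :=
    (c1.differentiableAt (by simp)).hasFDerivAt
  have d2 : HasFDerivAt (fderiv ℝ (fderiv ℝ ψ)) (fderiv ℝ (fderiv ℝ (fderiv ℝ ψ)) z) z :=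
    (c2.differentiableAt (by simp)).hasFDerivAt
  have l1 : HasFDerivAt (fun y => fderiv ℝ ψ y (chris (pull ψ G) y v w)) _ z :=
    d1.clm_apply (differentiableAt_chris h' v w).hasFDerivAt
  have r0 : HasFDerivAt (fun y => cB G (ψ y)) _ z := (diff_cB h).hasFDerivAt.comp z d0
  have r1 : ∀ v, HasFDerivAt (fun y => fderiv ℝ ψ y v) _ z := fun v =>
    d1.clm_apply (hasFDerivAt_const v z)
  have r2 : HasFDerivAt (fun y => cB G (ψ y) (fderiv ℝ ψ y v) (fderiv ℝ ψ y w)) _ z :=
    (r0.clm_apply (r1 v)).clm_apply (r1 w)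
  have r3 : HasFDerivAt (fun y => fderiv ℝ (fderiv ℝ ψ) y v w) _ z :=
    (d2.clm_apply (hasFDerivAt_const v z)).clm_apply (hasFDerivAt_const w z)
  have r4 := r2.add r3
  have e1 : (fun y => fderiv ℝ ψ y (chris (pull ψ G) y v w)) =ᶠ[𝓝 z]
      (fun y => cB G (ψ y) (fderiv ℝ ψ y v) (fderiv ℝ ψ y w)) +
        fun y => fderiv ℝ (fderiv ℝ ψ) y v w := by
    filter_upwards [hc] with y hy
    exact hy v w
  have e2 := congrArg (fun L => L u) (l1.unique (r4.congr_of_eventuallyEq e1))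
  simp only [ContinuousLinearMap.add_apply, ContinuousLinearMap.comp_apply,
    ContinuousLinearMap.flip_apply, ContinuousLinearMap.zero_apply, map_zero, zero_add,
    add_zero, cB_apply] at e2
  rw [add_comm (fderiv ℝ (fderiv ℝ ψ) z u (chris (pull ψ G) z v w))]
  refine e2.trans ?_
  abel

theorem inv
    (chi : ∀ {ψ : E → E} {z : E} (hψ : ContDiffAt ℝ 3 ψ z) (hinj : Function.Injective (fderiv ℝ ψ z))
      (h : GoodAt G (ψ z)),
      GoodAt (pull ψ G) z ∧ ∀ v w, fderiv ℝ ψ z (chris (pull ψ G) z v w) =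
        chris G (ψ z) (fderiv ℝ ψ z v) (fderiv ℝ ψ z w) + fderiv ℝ (fderiv ℝ ψ) z v w)
    (hψ : ContDiffAt ℝ 3 ψ z) (hinj : Function.Injective (fderiv ℝ ψ z))
    (h : GoodAt G (ψ z)) (v : E) :
    ricci (pull ψ G) z v v = ricci G (ψ z) (fderiv ℝ ψ z v) (fderiv ℝ ψ z v) := by
  have h' := (chi hψ hinj h).1
  have hcz := (chi hψ hinj h).2
  have c1 : ContDiffAt ℝ 2 (fderiv ℝ ψ) z := hψ.fderiv_right (by norm_num)
  -- `chi` holds near `z`
  have ev1 : ∀ᶠ y in 𝓝 z, ContDiffAt ℝ 3 ψ y := hψ.eventually (by simp)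
  have ev2 : ∀ᶠ y in 𝓝 z, GoodAt G (ψ y) := hψ.continuousAt.eventually h.eventually
  have ev3 : ∀ᶠ y in 𝓝 z, Function.Injective (fderiv ℝ ψ y) := by
    let e := (LinearEquiv.ofInjectiveEndo (fderiv ℝ ψ z : E →ₗ[ℝ] E) hinj).toContinuousLinearEquiv
    have he : (e : E →L[ℝ] E) = fderiv ℝ ψ z := by
      ext x
      rfl
    have hn := e.nhds
    rw [he] at hn
    filter_upwards [c1.continuousAt hn] with y hy
    obtain ⟨e', he'⟩ := hy
    rw [← he']
    exact e'.injective
  have hc : ∀ᶠ y in 𝓝 z, ∀ v w, fderiv ℝ ψ y (chris (pull ψ G) y v w) =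
        chris G (ψ y) (fderiv ℝ ψ y v) (fderiv ℝ ψ y w) + fderiv ℝ (fderiv ℝ ψ) y v w := by
    filter_upwards [ev1, ev2, ev3] with y a b c
    exact (chi a c b).2
  have hch := chain hψ h h' hc
  have s2 : ∀ a b, fderiv ℝ (fderiv ℝ ψ) z a b = fderiv ℝ (fderiv ℝ ψ) z b a := by
    intro a b
    exact (hψ.isSymmSndFDerivAt (by rw [minSmoothness_of_isRCLikeNormedField]; norm_num)) a b
  have s3 : ∀ a b, fderiv ℝ (fderiv ℝ (fderiv ℝ ψ)) z a b =
      fderiv ℝ (fderiv ℝ (fderiv ℝ ψ)) z b a := by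
    intro a b
    exact (c1.isSymmSndFDerivAt (by rw [minSmoothness_of_isRCLikeNormedField])) a b
  have key : ∀ u v w, fderiv ℝ ψ z (riem (pull ψ G) z u v w) =
      riem G (ψ z) (fderiv ℝ ψ z u) (fderiv ℝ ψ z v) (fderiv ℝ ψ z w) := by
    intro u v w
    have h1 := hch u v w
    have h2 := hch v u w
    have h3 := hcz u (chris (pull ψ G) z v w)
    have h4 := hcz v (chris (pull ψ G) z u w)
    rw [hcz v w, chris_add_right] at h3
    rw [hcz u w, chris_add_right] at h4
    rw [riem, riem, fderiv_chris h, fderiv_chris h]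
    simp only [map_sub, map_add]
    rw [h3, h4]
    have h1' := eq_sub_of_add_eq' h1
    have h2' := eq_sub_of_add_eq' h2
    rw [h1', h2', s2 u v, s3 u v]
    abel
  rw [ricci_eq_trace h', ricci_eq_trace h]
  let e := LinearEquiv.ofInjectiveEndo (fderiv ℝ ψ z : E →ₗ[ℝ] E) hinj
  rw [← LinearMap.trace_conj' (riemLin h' v v) e]
  congr 1
  apply LinearMap.ext
  intro x
  obtain ⟨y, rfl⟩ := e.surjective x
  rw [LinearEquiv.conj_apply_apply, LinearEquiv.symm_apply_apply]
  exact key y v v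

end Pool.Agent.Helper15.SL
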